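import Pool.Agent.EQC.Stmts

/-!
# Squad EQC, row FRV: free vertices, and the special vertex `r0`
-/

open SimpleGraph Finset
open Pool.Agent.Helper51_Equitable (edges nbrs vertexSum nb IsEquitableProper Nice)

namespace Pool.Agent.EQC.H81

variable {V : Type} [Fintype V] {G : SimpleGraph V} {c D : ℕ} {d : Dat G D} {s : Sel c d}

theorem e1_some (w : Win s) (p : Sup c d) {x v y : V} (h : d.par x v = some y) :
    E1 w p (Sum.inl (x, v)) = s(x, y) := by
  simp [E1, h]

theorem e1_none_w (w : Win s) (p : Sup c d) {x v : V} (h : d.par x v = none) (hx : Xw s x) :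
    E1 w p (Sum.inl (x, v)) = w.mt x false := by
  simp [E1, h, hx]

theorem e1_none (w : Win s) (p : Sup c d) {x v : V} (h : d.par x v = none) (hx : ¬ Xw s x) :
    E1 w p (Sum.inl (x, v)) = s(x, d.tau x) := by
  simp [E1, h, hx]

theorem frv : FrvStmt := by
  intro V _ G c D d s w p
  -- active vertices
  have act : ∀ i, Ok s i → Act d (Fr i) := by
    rintro (⟨x, v⟩ | ⟨x, v⟩ | ⟨t, j⟩) hi
    · by_contra h
      have h1 : x ∈ s.NF v := hi
      rw [(s.act v h).1] at h1
      simp at h1
    · by_contra h
      have h1 : x ∈ s.WF v := hi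
      rw [(s.act v h).2] at h1
      simp at h1
    · exact hi.2
  have e0r : ∀ i, Ok s i → d.r0 ∉ E0 p i := by
    intro i hi h
    have hA := act i hi
    rcases i with ⟨x, v⟩ | ⟨x, v⟩ | ⟨t, j⟩
    · have h1 := s.NF_sub v x hi
      rcases Sym2.mem_iff.1 h with h2 | h2
      · exact h1.2.1 h2.symm
      · exact hA.2.1 h2.symm
    · have h1 := s.WF_sub v x hi
      rcases Sym2.mem_iff.1 h with h2 | h2
      · exact h1.2.1 h2.symm
      · exact hA.2.1 h2.symm
    · have h1 := p.a_mem t j hi.1 hA.2.1
      rcases Sym2.mem_iff.1 h with h2 | h2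
      · exact h1.1 (h2 ▸ d.r0_hi)
      · exact hA.2.1 h2.symm
  have fe1 : ∀ i, Ok s i → Fr i ∉ E1 w p i := by
    intro i hi h
    have hA := act i hi
    rcases i with ⟨x, v⟩ | ⟨x, v⟩ | ⟨t, j⟩
    · have h1 := s.NF_sub v x hi
      have h2 := d.F_sub x h1.1 h1.2.1 v h1.2.2
      have hxv : v ≠ x := (d.ori.adj x v h2.2.1).ne'
      change v ∈ _ at h
      cases hp : d.par x v with
      | some y =>
        rw [e1_some w p hp] at h
        have h3 := d.par_some x h1.1 h1.2.1 v h1.2.2 y hp
        rcases Sym2.mem_iff.1 h with h4 | h4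
        · exact hxv h4
        · exact h3.2.2.2.1 (h4 ▸ h1.2.2)
      | none =>
        by_cases hx : Xw s x
        · rw [e1_none_w w p hp hx] at h
          exact w.free x hx v h1.2.2 hp h
        · rw [e1_none w p hp hx] at h
          rcases Sym2.mem_iff.1 h with h4 | h4
          · exact hxv h4
          · exact h2.2.2 h4
    · have h1 := s.WF_sub v x hi
      have hx : Xw s x := by
        unfold Xw
        rw [h1.2.2]
        exact hi
      have h2 := w.tau x hx
      rw [h1.2.2] at h2
      exact h2 h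
    · have h1 := p.b_mem t j hi.1 hA.2.1
      have h2 := p.nx_mem t hi.1 hA.2.1
      rcases Sym2.mem_iff.1 h with h4 | h4
      · change t = _ at h4
        exact h1.1 (h4 ▸ hi.1.1)
      · change t = _ at h4
        rcases h2.2 with h5 | h5
        · rw [← h4] at h5
          exact lt_irrefl _ h5
        · apply hA.2.1
          change t = _
          rw [← h5.2]
          exact h4
  have sup : ∀ i, Ok s i → d.r0 ∈ E1 w p i → ∃ j, i = Sum.inr (Sum.inr (p.s0, j)) := by
    intro i hi h
    have hA := act i hi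
    rcases i with ⟨x, v⟩ | ⟨x, v⟩ | ⟨t, j⟩
    · exfalso
      have h1 := s.NF_sub v x hi
      have h2 := d.F_sub x h1.1 h1.2.1 v h1.2.2
      have hv0 : v ≠ d.r0 := hA.2.1
      cases hp : d.par x v with
      | some y =>
        rw [e1_some w p hp] at h
        have h3 := d.par_some x h1.1 h1.2.1 v h1.2.2 y hp
        rcases Sym2.mem_iff.1 h with h4 | h4
        · exact h1.2.1 h4.symm
        · have h5 := h3.2.2.2.2
          rw [← h4] at h5
          exact absurd (d.rank.first v hv0) (not_lt.2 h5.le)
      | none =>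
        by_cases hx : Xw s x
        · rw [e1_none_w w p hp hx] at h
          exact (w.mem x false hx).2 h
        · rw [e1_none w p hp hx] at h
          rcases Sym2.mem_iff.1 h with h4 | h4
          · exact h1.2.1 h4.symm
          · have h5 := d.tau_top x h1.1 h1.2.1 (h4 ▸ d.r0_hi) v h2.2.1
            rw [← h4] at h5
            exact absurd (d.rank.first v hv0) (not_lt.2 h5.2)
    · exfalso
      have h1 := s.WF_sub v x hi
      have hx : Xw s x := by
        unfold Xw
        rw [h1.2.2]
        exact hi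
      exact (w.mem x true hx).2 h
    · have ht0 : t ≠ d.r0 := hA.2.1
      have h1 := p.b_mem t j hi.1 ht0
      have h2 := p.nx_mem t hi.1 ht0
      rcases Sym2.mem_iff.1 h with h4 | h4
      · exact absurd (h4 ▸ d.r0_hi) h1.1
      · rcases h2.2 with h5 | h5
        · rw [← h4] at h5
          exact absurd (d.rank.first t ht0) (not_lt.2 h5.le)
        · exact ⟨j, by rw [h5.1]⟩
  refine ⟨fun i hi => ⟨act i hi, ?_, fe1 i hi⟩, e0r, ?_, ?_⟩
  · rcases i with ⟨x, v⟩ | ⟨x, v⟩ | ⟨t, j⟩
    · exact Sym2.mem_mk_right _ _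
    · exact Sym2.mem_mk_right _ _
    · exact Sym2.mem_mk_right _ _
  · intro i hi h
    obtain ⟨j, rfl⟩ := sup i hi h
    rfl
  · unfold cnt
    classical
    have h1 : (univ.filter fun i : Idx V c => Ok s i ∧ d.r0 ∈ E1 w p i) ⊆
        (univ : Finset (Fin (4 * c + 11))).image fun j => Sum.inr (Sum.inr (p.s0, j)) := by
      intro i hi
      obtain ⟨j, hj⟩ := sup i (Finset.mem_filter.1 hi).2.1 (Finset.mem_filter.1 hi).2.2
      exact Finset.mem_image.2 ⟨j, Finset.mem_univ _, hj.symm⟩
    have h2 := (Finset.card_le_card h1).trans Finset.card_image_le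
    rw [Finset.card_univ, Fintype.card_fin] at h2
    refine le_trans (le_of_eq ?_) h2
    congr 1
    ext i
    simp

end Pool.Agent.EQC.H81
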